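import Pool.Agent.K3h78.PN.Motivic
import Pool.Agent.K3h78.RN.GLm
import Pool.Agent.K3h92.PN_HENS
import Pool.Agent.K3h67.PN_MODEL
import Pool.Agent.K3h98.PN.EXT
import Pool.Agent.K3h87.PN.MBASIS
import Pool.Agent.K3h57.PN_NOTBASE
import Pool.Agent.K3h76.PN.VAN

/-!
# The Beilinson–Soulé vanishing conjecture and complete fields

Let `L` be a field of characteristic zero which is complete for a nontrivial nonarchimedean absolute
value (for instance `ℚ_p` for a prime number `p`, or the field `ℚ((t))` of Laurent series), `Ω` an algebraic
closure of `L` and `ℚ̄` the algebraic closure of `ℚ` in `Ω`. Let `F` be a functor from commutative rings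
to vector spaces over `ℚ` which is finitary on the fields of characteristic zero (`F(M)` is the
filtered colimit of the `F(A)`, `A` a finitely generated `K`-subalgebra, for all extensions `M / K` of
such fields).

**Theorem 1** (`Dichotomy`). Either all classes of `F` over `Ω` come from `ℚ̄`, or there are a finite
Galois extension `E / L` in `Ω` and classes `γ_t` over `E`, one for each real number `t`, such that the
sums of their conjugates `∑_σ σ(γ_t)`, `σ ∈ Gal(E/L)`, are linearly independent in `F(Ω)` modulo
the classes which come from `ℚ̄`.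

This holds for instance for each natural direct summand of the functor `A ↦ H_n(GL_m(A); ℚ)` (for large
`m` these contain the rational `K`-groups and their Adams eigenspaces, that is, the motivic cohomology
of the rings `A`). When `F` has Galois descent, the sums come from `F(L)`.

**Theorem 2.** Let `X ↦ H^k(X, ℚ(j))` be a theory with the formal properties of rational motivic
cohomology listed in `MotivicTheory` (functoriality, continuity, transfers for algebraic extensions,
product with the symbol of a variable, coniveau) and with Galois descent, and `L` as above. The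
following are equivalent:

* `H^k(X, ℚ(j)) = 0` for all smooth projective complex varieties `X`, all `j` and all `k < 0`;
* the same for all smooth complex varieties;
* for all `j`, the group `H^{-1}(Spec ℚ̄, ℚ(j))` is zero (a theorem of Borel) and the group
  `H^{-1}(Spec L, ℚ(j))` has fewer than `2^ℵ₀` elements.

So if the vanishing conjecture fails for one complex variety, then it fails for every field `L` as above in
degree `-1`, by `2^ℵ₀` classes: it is a question on the field `ℚ_p`, for any one prime number `p`, or
on the field `ℚ((t))`.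

Proof of Theorem 1: a class `α` over `Ω` is defined over a finitely generated `ℚ`-algebra, which is
contained in a finite extension `ℚ(ξ₁,…,ξ_d)[y]`, `Q(ξ, y) = 0`, of a field of rational functions. Choose
a point `(u, v)` of `Q = 0` with `u` rational, `v` algebraic and `∂Q/∂y(u, v) ≠ 0`, and a finite Galois
extension `E = L(θ)` of `L` with `v ∈ E` and `θ` algebraic over `ℚ`. By Hensel's lemma (Newton's
method in `E`) the algebra embeds into `E` with `ξ_i ↦ u_i + ∑_m θ^m b_{i,m}` for all small and
algebraically independent `b_{i,m} ∈ L`. There is a transcendence basis of `Ω` over `ℚ̄` which consists of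
small elements of `L` (multiply the elements of a basis by powers of a small element, which is in `ℚ̄`
or is an element of the basis). As the matrix `σ(θ)^m` is invertible over `ℚ̄`, the elements
`σ(ξ_i) = u_i + ∑_m σ(θ)^m b_{i,m}`, for all `σ ∈ Gal(E/L)` and for all the blocks `t` of the basis,
form a transcendence basis again. So the conjugates `σ(γ_t)` of the classes `γ_t ∈ F(E)` obtained from
`α` are defined over the algebraic closures of the fields generated by disjoint parts of a
transcendence basis. A linear relation modulo the classes from `ℚ̄` between the sums is specialized at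
a place of `Ω` over `ℚ̄` which fixes one part and sends the others to elements of `ℚ̄`; this shows that
`α` comes from `ℚ̄`.

Parts of the proof were written by helper35 (small transcendence bases), helper57 and helper67 (models of
classes over finitely generated algebras), helper76 (reduction of all fields to one algebraically closed
field), helper87 (change of the transcendence basis), helper92 (Hensel's lemma), helper98 (the Galois
extension). The files `Pool/Agent/K3h85/BS` of helper85 (the results `CountabilityCriterion` and
`LinearGroups` on the conjugates of a class under all automorphisms of `ℂ`) are used for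
`MotivicTheory`, finitary functors and the specialization at places.
-/

set_option autoImplicit false

open CategoryTheory AlgebraicGeometry Opposite Pool.Agent.K3h85.BS Pool.Agent.K3h78.RN
  Pool.Agent.Y483

namespace Pool.Agent.Results.MP_d72c81_ag.CompleteFields

/-- `F` is finitary on the fields of characteristic zero. -/
def FinitaryOnFields (F : CommRingCat.{0} ⥤ ModuleCat.{0} ℚ) : Prop :=
  ∀ (K M : Type) [Field K] [CharZero K] [Field M] [Algebra K M], IsFinitary (restr K F) M

/-- Either all classes of `F` over `Ω` come from `ℚ̄`, or there are a finite Galois extension `E / L`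
in `Ω` and classes `γ t` over `E`, one for each real number `t`, such that the sums of their conjugates
are linearly independent over `Ω` modulo the classes which come from `ℚ̄`. -/
def Dichotomy (L Ω : Type) [Field L] [Field Ω] [Algebra L Ω] [Algebra (AlgebraicClosure ℚ) Ω]
    (F : CommRingCat.{0} ⥤ ModuleCat.{0} ℚ) : Prop :=
  (∀ α : ov F Ω, ∃ β : ov F (AlgebraicClosure ℚ),
      mr F (algebraMap (AlgebraicClosure ℚ) Ω) β = α) ∨
    ∃ (E : IntermediateField L Ω) (_ : FiniteDimensional L E) (γ : ℝ → ov F E), IsGalois L E ∧
      LinearIndependent ℚ fun t =>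
        (LinearMap.range (mr F (algebraMap (AlgebraicClosure ℚ) Ω))).mkQ
          (mr F (algebraMap E Ω) (∑ σ : E ≃ₐ[L] E, mr F (σ : E →+* E) (γ t)))

/-- The three statements are equivalent: the vanishing conjecture for the varieties in the class `P`; the
vanishing conjecture for all smooth complex varieties; the vanishing in degree `-1` for `ℚ̄` and the
smallness in degree `-1` for the field `L`. -/
def Criterion (T : DescentTheory) (P : ∀ X : Scheme.{0}, (X ⟶ Spec (CommRingCat.of ℂ)) → Prop)
    (L : Type) [Field L] : Prop :=
  [∀ (X : Scheme.{0}) (f : X ⟶ Spec (CommRingCat.of ℂ)), P X f → ∀ k j : ℤ, k < 0 →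
      Subsingleton ((T.H k j).obj (op X)),
    ∀ (X : Scheme.{0}) (f : X ⟶ Spec (CommRingCat.of ℂ)), IsSmoothVariety f →
      ∀ k j : ℤ, k < 0 → Subsingleton ((T.H k j).obj (op X)),
    ∀ j : ℤ, Subsingleton (overRing (T.H (-1) j) (AlgebraicClosure ℚ)) ∧
      Cardinal.mk (overRing (T.H (-1) j) L) < Cardinal.continuum].TFAE

theorem dichotomy (L Ω : Type) [NontriviallyNormedField L] [CompleteSpace L] [IsUltrametricDist L]
    [CharZero L] [Field Ω] [Algebra L Ω] [IsAlgClosure L Ω] [Algebra (AlgebraicClosure ℚ) Ω]
    (F : CommRingCat.{0} ⥤ ModuleCat.{0} ℚ) (hF : FinitaryOnFields F) : Dichotomy L Ω F := by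
  by_cases h : ∀ α : ov F Ω, ∃ β : ov F (AlgebraicClosure ℚ),
      mr F (algebraMap (AlgebraicClosure ℚ) Ω) β = α
  · exact Or.inl h
  · push Not at h
    obtain ⟨α, hα⟩ := h
    have hchar : CharZero Ω := charZero_of_injective_algebraMap (algebraMap L Ω).injective
    have h1 : α ∉ base (restr (AlgebraicClosure ℚ) F) Ω := by
      rintro ⟨β, hβ⟩
      exact hα β hβ
    obtain ⟨E, hfd, S, γ, hgal, hS, hli⟩ := Pool.Agent.K3h78.PN.core Pool.Agent.K3h92.PN.t_HENS
      Pool.Agent.K3h67.PN.t_MODEL Pool.Agent.K3h98.PN.t_EXT Pool.Agent.K3h87.PN.t_MBASIS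
      Pool.Agent.K3h57.PN.t_NOTBASE F hF L Ω h1
    rw [← Cardinal.mk_real] at hS
    obtain ⟨f⟩ : Nonempty (ℝ ↪ S) := hS
    exact Or.inr ⟨E, hfd, fun t => γ (f t), hgal, hli.comp f f.injective⟩

theorem criterion (T : DescentTheory)
    (P : ∀ X : Scheme.{0}, (X ⟶ Spec (CommRingCat.of ℂ)) → Prop)
    (hP : ∀ (X : Scheme.{0}) (f : X ⟶ Spec (CommRingCat.of ℂ)), P X f → IsSmoothVariety f)
    (hpt : P (Spec (CommRingCat.of ℂ)) (𝟙 _)) (L : Type) [NontriviallyNormedField L]
    [CompleteSpace L] [IsUltrametricDist L] [CharZero L] : Criterion T P L := by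
  unfold Criterion
  tfae_have 2 → 1 := fun h X f hf k j hk => h X f (hP X f hf) k j hk
  tfae_have 1 → 3 := by
    intro h j
    have h1 : Subsingleton (overRing (T.H (-1) j) ℂ) := h _ _ hpt (-1) j (by norm_num)
    have h2 : ∀ (E : Type) [Field E] [CharZero E], Subsingleton (overRing (T.H (-1) j) E) :=
      fun E _ _ => vanishes_of_complex (T.H (-1) j)
        (fun K L _ _ _ _ => T.continuity (-1) j K L)
        (fun E E' _ _ _ _ _ => T.transfer (-1) j E E') h1 E
    exact ⟨h2 _, (Cardinal.le_one_iff_subsingleton.2 (h2 L)).trans_lt
      (by simpa using Cardinal.nat_lt_continuum 1)⟩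
  tfae_have 3 → 2 := by
    intro h X f hf k j hk
    exact T.varieties_vanish (fun j => Pool.Agent.K3h78.PN.vanishes Pool.Agent.K3h92.PN.t_HENS
      Pool.Agent.K3h67.PN.t_MODEL Pool.Agent.K3h98.PN.t_EXT Pool.Agent.K3h87.PN.t_MBASIS
      Pool.Agent.K3h57.PN.t_NOTBASE Pool.Agent.K3h76.PN.t_VAN T (-1) j L (h j).1 (h j).2) X f hf k
      j hk
  tfae_finish

/-- Let `L` be a complete nonarchimedean field of characteristic zero with algebraic closure `Ω`. (1) The
dichotomy holds for every functor `F` from commutative rings to vector spaces over `ℚ` which is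
finitary on the fields of characteristic zero. (2) It holds for every natural direct summand of the
functor `A ↦ H_n(𝒢(A); ℚ)`, where `𝒢` is a functor from commutative rings to groups which is
finitary on the fields of characteristic zero, such as `GL_m`. (3) The vanishing conjecture is
equivalent to the smallness of the groups in degree `-1` of the field `L`, given the vanishing for the
algebraic closure of `ℚ`. (4) In particular this holds for the field `ℚ_p`, for every prime
number `p`. -/
theorem result :
    (∀ (L Ω : Type) [NontriviallyNormedField L] [CompleteSpace L] [IsUltrametricDist L] [CharZero L]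
      [Field Ω] [Algebra L Ω] [IsAlgClosure L Ω] [Algebra (AlgebraicClosure ℚ) Ω],
      (∀ F : CommRingCat.{0} ⥤ ModuleCat.{0} ℚ, FinitaryOnFields F → Dichotomy L Ω F) ∧
      ∀ 𝒢 : CommRingCat.{0} ⥤ GrpCat.{0}, (∀ (K M : Type) [Field K] [CharZero K] [Field M]
          [Algebra K M], IsFinitaryGrp (restrGrp K 𝒢) M) →
        ∀ (n : ℕ) (F : CommRingCat.{0} ⥤ ModuleCat.{0} ℚ) (i : F ⟶ 𝒢 ⋙ hq n)
          (r : 𝒢 ⋙ hq n ⟶ F), i ≫ r = 𝟙 F → Dichotomy L Ω F) ∧
    (∀ (K M : Type) [Field K] [CharZero K] [Field M] [Algebra K M] (m : ℕ),
      IsFinitaryGrp (restrGrp K (glRings m)) M) ∧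
    ∀ (T : DescentTheory) (P : ∀ X : Scheme.{0}, (X ⟶ Spec (CommRingCat.of ℂ)) → Prop),
      (∀ (X : Scheme.{0}) (f : X ⟶ Spec (CommRingCat.of ℂ)), P X f → IsSmoothVariety f) →
      P (Spec (CommRingCat.of ℂ)) (𝟙 _) →
      (∀ (L : Type) [NontriviallyNormedField L] [CompleteSpace L] [IsUltrametricDist L]
        [CharZero L], Criterion T P L) ∧
      ∀ (p : ℕ) [Fact p.Prime], Criterion T P ℚ_[p] :=
  ⟨fun L Ω _ _ _ _ _ _ _ _ => ⟨fun F hF => dichotomy L Ω F hF,
    fun _ h𝒢 n F i r hir => dichotomy L Ω F fun K M _ _ _ _ =>
      isFinitary_restr_retract K i r hir M (isFinitary_homology (h𝒢 K M) n)⟩,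
    fun K M _ _ _ _ m => isFinitaryGrp_glRings K M m,
    fun T P hP hpt => ⟨fun L _ _ _ _ => criterion T P hP hpt L,
      fun p _ => criterion T P hP hpt ℚ_[p]⟩⟩

end Pool.Agent.Results.MP_d72c81_ag.CompleteFields
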