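import Pool.Agent.K3h85.BS.Main

/-!
# The Beilinson–Soulé vanishing conjecture and the conjugates of classes over `ℂ`

Let `X ↦ H^k(X, ℚ(j))` be a theory with the formal properties of rational motivic cohomology listed
in `MotivicTheory` (functoriality, continuity, transfers for algebraic extensions of fields, product
with the symbol of a variable, coniveau). The following are equivalent:

* `H^k(X, ℚ(j)) = 0` for all smooth projective complex varieties `X`, all `j` and all `k < 0`;
* the same for all smooth complex varieties;
* for all `j`, the group `H^{-1}(Spec ℚ̄, ℚ(j))` is zero (a theorem of Borel) and the group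
  `H^{-1}(Spec ℂ, ℚ(j))` is countable;
* for all `j`, the group `H^{-1}(Spec ℚ̄, ℚ(j))` is zero and each class in
  `H^{-1}(Spec ℂ, ℚ(j))` has fewer than `2^ℵ₀` conjugates under the automorphisms of the field `ℂ`.

The main step (`exists_independent`) is a dichotomy: if `K ⊆ L` are algebraically closed fields, `L`
of infinite transcendence degree over `K`, then a class over `L` which does not come from `K` has as
many conjugates which are linearly independent modulo the classes over `K` as `L / K` has elements in
a transcendence basis. It is proved by specialization of a linear relation at a place of `L` which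
fixes one of the conjugates and sends the others to classes over `K`.
-/

set_option autoImplicit false

open CategoryTheory AlgebraicGeometry Opposite Pool.Agent.K3h85.BS

namespace Pool.Agent.Results.MP_d72c81_ag.CountabilityCriterion

/-- Let `T` be a theory with the formal properties of rational motivic cohomology, and `P` a class of
smooth complex varieties which contains the point, such as the class of all smooth projective
varieties. Then the groups of all members of `P` vanish in all negative degrees if and only if those of
all smooth complex varieties do, if and only if for all weights `j` the group `H^{-1}(ℚ̄, ℚ(j))`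
is zero and the group `H^{-1}(ℂ, ℚ(j))` is countable, if and only if for all `j` the group
`H^{-1}(ℚ̄, ℚ(j))` is zero and each element of `H^{-1}(ℂ, ℚ(j))` has fewer than `2^ℵ₀`
conjugates. -/
theorem result (T : MotivicTheory)
    (P : ∀ X : Scheme.{0}, (X ⟶ Spec (CommRingCat.of ℂ)) → Prop)
    (hP : ∀ (X : Scheme.{0}) (f : X ⟶ Spec (CommRingCat.of ℂ)), P X f → IsSmoothVariety f)
    (hpt : P (Spec (CommRingCat.of ℂ)) (𝟙 _)) :
    [∀ (X : Scheme.{0}) (f : X ⟶ Spec (CommRingCat.of ℂ)), P X f → ∀ k j : ℤ, k < 0 →
        Subsingleton ((T.H k j).obj (op X)),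
      ∀ (X : Scheme.{0}) (f : X ⟶ Spec (CommRingCat.of ℂ)), IsSmoothVariety f → ∀ k j : ℤ, k < 0 →
        Subsingleton ((T.H k j).obj (op X)),
      ∀ j : ℤ, Subsingleton (overRing (T.H (-1) j) (AlgebraicClosure ℚ)) ∧
        Countable (overRing (T.H (-1) j) ℂ),
      ∀ j : ℤ, Subsingleton (overRing (T.H (-1) j) (AlgebraicClosure ℚ)) ∧
        ∀ α : overRing (T.H (-1) j) ℂ,
          Cardinal.mk (conjugates (T.H (-1) j) α) < Cardinal.continuum].TFAE := by
  tfae_have 2 → 1 := fun h X f hf k j hk => h X f (hP X f hf) k j hk
  tfae_have 1 → 3 := by
    intro h j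
    have h1 : Subsingleton (overRing (T.H (-1) j) ℂ) := h _ _ hpt (-1) j (by norm_num)
    refine ⟨?_, inferInstance⟩
    obtain ⟨i⟩ := exists_hom_closure ℚ
    let _ : Algebra (AlgebraicClosure ℚ) ℂ := i.toAlgebra
    have h2 : Function.Injective (mapRing (T.H (-1) j) (algebraMap (AlgebraicClosure ℚ) ℂ)) :=
      injective_of_isFinitary (T.continuity (-1) j (AlgebraicClosure ℚ) ℂ)
    exact h2.subsingleton
  tfae_have 3 → 4 := by
    intro h j
    refine ⟨(h j).1, fun α => ?_⟩
    have h1 : Countable (overRing (T.H (-1) j) ℂ) := (h j).2
    exact (Cardinal.mk_le_aleph0_iff.2 inferInstance).trans_lt Cardinal.aleph0_lt_continuum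
  tfae_have 4 → 2 := by
    intro h X f hf k j hk
    refine T.varieties_vanish (fun j => ?_) X f hf k j hk
    refine subsingleton_of_forall_eq 0 fun α => ?_
    obtain ⟨i⟩ := exists_hom_closure ℚ
    let _ : Algebra (AlgebraicClosure ℚ) ℂ := i.toAlgebra
    obtain ⟨β, rfl⟩ := mem_range_of_few (T.H (-1) j) (AlgebraicClosure ℚ)
      (card_closure ℚ (le_of_eq Cardinal.mkRat))
      (T.continuity (-1) j (AlgebraicClosure ℚ) ℂ) α ((h j).2 α)
    have h1 := (h j).1
    rw [Subsingleton.elim β 0, map_zero]
  tfae_finish

end Pool.Agent.Results.MP_d72c81_ag.CountabilityCriterion
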