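import Pool.Agent.K3h85.BS.GLin

/-!
# Classes in the homology of linear groups over `ℂ`: defined over a countable field, or many conjugates

Let `K ⊆ L` be algebraically closed fields, `L` of infinite transcendence degree over `K`, for
instance `K` the algebraic closure of `ℚ` (or any countable algebraically closed field) and
`L = ℂ`, where a transcendence basis has `2^ℵ₀` elements. Let `G` be a functor from commutative
`K`-algebras to groups such that `G(L)` is the directed union of the groups `G(A)`, `A` a finitely
generated subalgebra of `L` (`IsFinitaryGrp`), for instance `GL_m(B ⊗ A)` for a commutative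
`K`-algebra `B`, or the stable linear group `GL(B ⊗ A)`. Let `F` be a natural direct summand of the
rational homology `A ↦ H_n(G(A); ℚ)`.

Examples of such `F`, for `G(A) = GL(B ⊗ A)`: the whole homology; the rational `K`-theory
`K_n(B ⊗ A) ⊗ ℚ` (the primitive part of the homology, by the theorem of Milnor and Moore) and its
Adams eigenspaces, that is, for `X = Spec B` smooth over `K`, the motivic cohomology
`H^k(X_L, ℚ(j))`, `n = 2 j - k`, which is `CH^j(X_L, 2 j - k) ⊗ ℚ`.

The theorem: `F(K) → F(L)` is injective, and each class `α` in `F(L)` which does not come from `F(K)`
has as many conjugates under the automorphisms of `L` over `K`, linearly independent modulo `F(K)`, as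
a transcendence basis of `L` over `K` has elements.

So if the vanishing conjecture fails for `Spec ℂ` in degree `k < 0` and weight `j`, then (as the groups
over the algebraic closure of `ℚ` are zero by the theorem of Borel) each nonzero class has `2^ℵ₀`
linearly independent conjugates.

Proof: homology commutes with directed unions, so `α` and a linear relation between conjugates
are defined over finitely generated algebras; a place of `L`, found with the help of the theorem on
extensions of homomorphisms to valuation rings, fixes one conjugate and sends the others to classes
over `K`.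
-/

set_option autoImplicit false

open CategoryTheory Pool.Agent.K3h85.BS Pool.Agent.Y483

namespace Pool.Agent.Results.MP_d72c81_ag.LinearGroups

/-- The functors `A ↦ GL_m(B ⊗ A)` are finitary. Let `F` be a natural direct summand of the functor
`A ↦ H_n(G(A); ℚ)`, `G` a finitary functor from commutative `K`-algebras to groups, and let `x` be an
infinite transcendence basis of `L` over `K`, both algebraically closed. Then `F(K) → F(L)` is injective,
and for each `α` in `F(L)` which is not in the image of `F(K)` there are automorphisms `τ i` of `L` over
`K`, indexed by the transcendence basis, such that the conjugates `τ i (α)` are linearly independent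
modulo the image of `F(K)`. -/
theorem result {K L : Type} [Field K] [IsAlgClosed K] [Field L] [IsAlgClosed L] [Algebra K L]
    {ι : Type} [Infinite ι] (x : ι → L) (hx : IsTranscendenceBasis K x) :
    (∀ (B : Type) [CommRing B] [Algebra K B] (m : ℕ), IsFinitaryGrp (glFunctor (K := K) B m) L) ∧
    ∀ G : CommAlgCat.{0} K ⥤ GrpCat.{0}, IsFinitaryGrp G L →
      ∀ (n : ℕ) (F : CommAlgCat.{0} K ⥤ ModuleCat.{0} ℚ) (i : F ⟶ G ⋙ hq n) (r : G ⋙ hq n ⟶ F),
        i ≫ r = 𝟙 F →
        Function.Injective (mapA F (Algebra.ofId K L)) ∧
        ∀ α : F.obj (CommAlgCat.of K L), α ∉ LinearMap.range (mapA F (Algebra.ofId K L)) →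
          ∃ τ : ι → (L ≃ₐ[K] L), LinearIndependent ℚ fun i =>
            (LinearMap.range (mapA F (Algebra.ofId K L))).mkQ (mapA F (τ i : L →ₐ[K] L) α) := by
  refine ⟨fun B _ _ m => isFinitaryGrp_gl B m L, fun G hG n F i r hir => ?_⟩
  have h1 : IsFinitary F L := isFinitary_retract i r hir L (isFinitary_homology hG n)
  exact ⟨injective_of_isFinitary h1, fun α hα => exists_independent h1 hx hα⟩

end Pool.Agent.Results.MP_d72c81_ag.LinearGroups
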