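import Pool.Agent.K3h78.RN.GLm
import Pool.Agent.K3h78.RN.Motivic

/-!
# The Beilinson–Soulé vanishing conjecture, complex conjugation and the field of real numbers

Let `K` be a countable algebraically closed subfield of `ℂ` which is preserved by complex conjugation, for
instance the algebraic closure of `ℚ`, and `F` a functor from commutative rings to vector spaces over
`ℚ` which is finitary on `ℂ / K` (`F(ℂ)` is the filtered colimit of the `F(A)`, `A` a finitely
generated `K`-subalgebra).

**Theorem 1** (`Dichotomy`). Either all classes over `ℂ` come from `K`, or both eigenspaces of complex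
conjugation on `F(ℂ)` contain `2^ℵ₀` classes which are linearly independent modulo the classes
which come from `K`.

This holds for instance for each natural direct summand of the functor `A ↦ H_n(GL_m(A); ℚ)` (for large
`m` these contain the rational `K`-groups and their Adams eigenspaces, that is, the motivic cohomology
of the rings `A`).

**Theorem 2.** Let `X ↦ H^k(X, ℚ(j))` be a theory with the formal properties of rational motivic
cohomology listed in `MotivicTheory` (functoriality, continuity, transfers for algebraic extensions,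
product with the symbol of a variable, coniveau) and with Galois descent. The following are equivalent:

* `H^k(X, ℚ(j)) = 0` for all smooth projective complex varieties `X`, all `j` and all `k < 0`;
* the same for all smooth complex varieties;
* for all `j`, the group `H^{-1}(Spec ℚ̄, ℚ(j))` is zero (a theorem of Borel) and the group
  `H^{-1}(Spec ℝ, ℚ(j))` has fewer than `2^ℵ₀` elements;
* for all `j`, the group `H^{-1}(Spec ℚ̄, ℚ(j))` is zero and one of the two eigenspaces of complex
  conjugation on `H^{-1}(Spec ℂ, ℚ(j))` has fewer than `2^ℵ₀` elements.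

So if the vanishing conjecture fails, then it fails for the field of real numbers in degree `-1`, by
`2^ℵ₀` classes, and complex conjugation has both eigenvalues on `H^{-1}(Spec ℂ, ℚ(j))` for some `j`.

Proof of Theorem 1: `ℂ` has a transcendence basis over `K` which consists of pairs `z_t`, `z̄_t`. Let
`α` be a class over `ℂ` which does not come from `K`. There are automorphisms `τ_t` of `ℂ` over `K` such
that the classes `τ_t(α)` are defined over algebraic closures of fields `K(z_s, s ∈ S_t)` for disjoint
finite sets `S_t`. The conjugate of `τ_t(α)` is defined over the algebraic closure of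
`K(z̄_s, s ∈ S_t)`. A linear relation, modulo the classes from `K`, between the classes
`β_t = τ_t(α) ± τ_t(α)̄` is specialized at a place of `ℂ` which fixes `K(z_s, s ∈ S_u)` and sends
the other coordinates to elements of `K`; this shows that `τ_u(α)` comes from `K`, a contradiction.

The files `Pool/Agent/K3h85/BS` of helper85 (the results `CountabilityCriterion` and `LinearGroups` on
the conjugates of a class under all automorphisms of `ℂ`) are used for `MotivicTheory`, finitary
functors and the specialization at places.
-/

set_option autoImplicit false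

open CategoryTheory AlgebraicGeometry Opposite Pool.Agent.K3h85.BS Pool.Agent.K3h78.RN
  Pool.Agent.Y483

namespace Pool.Agent.Results.MP_d72c81_ag.RealNumbers

/-- Either all classes of `F` over `ℂ` come from `K`, or for `e = 1` and for `e = -1` there are classes
`β t` over `ℂ`, one for each real number `t`, which are multiplied by `e` by complex conjugation and
linearly independent modulo the classes which come from `K`. -/
def Dichotomy (K : Type) [Field K] [Algebra K ℂ] (F : CommRingCat.{0} ⥤ ModuleCat.{0} ℚ) : Prop :=
  (∀ α : ov F ℂ, ∃ β : ov F K, mr F (algebraMap K ℂ) β = α) ∨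
    ∀ e : ℚ, e = 1 ∨ e = -1 → ∃ β : ℝ → ov F ℂ, (∀ t, mr F (starRingEnd ℂ) (β t) = e • β t) ∧
      LinearIndependent ℚ fun t => (LinearMap.range (mr F (algebraMap K ℂ))).mkQ (β t)

theorem dichotomy (K : Type) [Field K] [IsAlgClosed K] [Algebra K ℂ]
    (hK : Cardinal.mk K ≤ Cardinal.aleph0)
    (hc : ∀ k : K, ∃ k' : K, (starRingEnd ℂ) (algebraMap K ℂ k) = algebraMap K ℂ k')
    (F : CommRingCat.{0} ⥤ ModuleCat.{0} ℚ) (hF : IsFinitary (restr K F) ℂ) : Dichotomy K F := by
  by_cases h : ∀ α : ov F ℂ, ∃ β : ov F K, mr F (algebraMap K ℂ) β = α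
  · exact Or.inl h
  · push Not at h
    obtain ⟨α, hα⟩ := h
    refine Or.inr fun e he => ?_
    have h1 : α ∉ base (restr K F) ℂ := by
      rintro ⟨β, hβ⟩
      exact hα β hβ
    exact complex_eigen F K hK hc hF h1 e (by rcases he with rfl | rfl <;> norm_num)

/-- (1) The dichotomy holds for every functor from commutative rings to vector spaces over `ℚ` which is
finitary on `ℂ / K`, where `K` is a countable algebraically closed subfield of `ℂ`, preserved by complex
conjugation. (2) It holds for every natural direct summand of the functor `A ↦ H_n(𝒢(A); ℚ)`, where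
`𝒢` is a functor from commutative rings to groups which is finitary on `ℂ / K`, such as
`GL_m`. (3) The vanishing conjecture is equivalent to the smallness of the groups in degree `-1` of
the field of real numbers, and to the smallness of one eigenspace of complex conjugation for each
weight, given the vanishing for the algebraic closure of `ℚ`. -/
theorem result :
    (∀ (K : Type) [Field K] [IsAlgClosed K] [Algebra K ℂ], Cardinal.mk K ≤ Cardinal.aleph0 →
      (∀ k : K, ∃ k' : K, (starRingEnd ℂ) (algebraMap K ℂ k) = algebraMap K ℂ k') →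
      (∀ F : CommRingCat.{0} ⥤ ModuleCat.{0} ℚ, IsFinitary (restr K F) ℂ → Dichotomy K F) ∧
      (∀ m : ℕ, IsFinitaryGrp (restrGrp K (glRings m)) ℂ) ∧
      ∀ 𝒢 : CommRingCat.{0} ⥤ GrpCat.{0}, IsFinitaryGrp (restrGrp K 𝒢) ℂ →
        ∀ (n : ℕ) (F : CommRingCat.{0} ⥤ ModuleCat.{0} ℚ) (i : F ⟶ 𝒢 ⋙ hq n)
          (r : 𝒢 ⋙ hq n ⟶ F), i ≫ r = 𝟙 F → Dichotomy K F) ∧
    ∀ (T : DescentTheory) (P : ∀ X : Scheme.{0}, (X ⟶ Spec (CommRingCat.of ℂ)) → Prop),
      (∀ (X : Scheme.{0}) (f : X ⟶ Spec (CommRingCat.of ℂ)), P X f → IsSmoothVariety f) →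
      P (Spec (CommRingCat.of ℂ)) (𝟙 _) →
      [∀ (X : Scheme.{0}) (f : X ⟶ Spec (CommRingCat.of ℂ)), P X f → ∀ k j : ℤ, k < 0 →
          Subsingleton ((T.H k j).obj (op X)),
        ∀ (X : Scheme.{0}) (f : X ⟶ Spec (CommRingCat.of ℂ)), IsSmoothVariety f → ∀ k j : ℤ,
          k < 0 → Subsingleton ((T.H k j).obj (op X)),
        ∀ j : ℤ, Subsingleton (overRing (T.H (-1) j) (AlgebraicClosure ℚ)) ∧
          Cardinal.mk (overRing (T.H (-1) j) ℝ) < Cardinal.continuum,
        ∀ j : ℤ, Subsingleton (overRing (T.H (-1) j) (AlgebraicClosure ℚ)) ∧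
          (Cardinal.mk (fixedClasses (T.H (-1) j)) < Cardinal.continuum ∨
            Cardinal.mk (negatedClasses (T.H (-1) j)) < Cardinal.continuum)].TFAE := by
  refine ⟨fun K _ _ _ hK hc => ⟨fun F hF => dichotomy K hK hc F hF,
    fun m => isFinitaryGrp_glRings K ℂ m, fun 𝒢 h𝒢 n F i r hir => dichotomy K hK hc F
      (isFinitary_restr_retract K i r hir ℂ (isFinitary_homology h𝒢 n))⟩,
    fun T P hP hpt => ?_⟩
  tfae_have 2 → 1 := fun h X f hf k j hk => h X f (hP X f hf) k j hk
  tfae_have 1 → 3 := by
    intro h j
    have h1 : Subsingleton (overRing (T.H (-1) j) ℂ) := h _ _ hpt (-1) j (by norm_num)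
    have h2 : ∀ (E : Type) [Field E] [CharZero E], Subsingleton (overRing (T.H (-1) j) E) :=
      fun E _ _ => vanishes_of_complex (T.H (-1) j)
        (fun K L _ _ _ _ => T.continuity (-1) j K L)
        (fun E E' _ _ _ _ _ => T.transfer (-1) j E E') h1 E
    refine ⟨h2 _, ?_⟩
    have h3 := h2 ℝ
    exact (Cardinal.le_one_iff_subsingleton.2 h3).trans_lt
      (by simpa using Cardinal.nat_lt_continuum 1)
  tfae_have 3 → 4 := fun h j => ⟨(h j).1, Or.inl (T.card_fixed (-1) j (h j).2)⟩
  tfae_have 4 → 2 := by
    intro h X f hf k j hk
    exact T.varieties_vanish (fun j => T.complex_vanishes (-1) j (h j).1 (h j).2) X f hf k j hk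
  tfae_finish

end Pool.Agent.Results.MP_d72c81_ag.RealNumbers
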